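import Pool.Agent.Lib.MP_1a91b9_nuX.HU.Unit

/-!
# The coefficients of the curve for the fields with more than two units
-/

set_option autoImplicit false

namespace Pool.Agent.Lib.MP_1a91b9_nuX.HU

open NumberField IsDedekindDomain WeierstrassCurve Pool.Agent.Lib.MP_1a91b9_nuT DB

noncomputable section

variable [CD]

theorem G_unit (u : (𝓞 K)ˣ) (k : ℕ) :
    PP.G k = (embK ((u : 𝓞 K) : K) ^ k)⁻¹ * PP.G k := by
  have h0 := emb_ne u
  unfold PeriodPair.G
  conv_lhs => rw [← (latE u).tsum_eq]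
  rw [← tsum_mul_left]
  refine tsum_congr fun l => ?_
  rw [latE_apply, mul_pow, mul_inv]

theorem G_zero (u : (𝓞 K)ˣ) (k : ℕ) (h : embK ((u : 𝓞 K) : K) ^ k ≠ 1) : PP.G k = 0 := by
  by_contra hc
  have h1 := G_unit u k
  have h2 : (embK ((u : 𝓞 K) : K) ^ k)⁻¹ = 1 := by
    have h3 : ((embK ((u : 𝓞 K) : K) ^ k)⁻¹ - 1) * PP.G k = 0 := by linear_combination -h1
    exact sub_eq_zero.1 ((mul_eq_zero.1 h3).resolve_right hc)
  exact h (inv_eq_one.1 h2)

theorem A_eq_zero (h : PP.G 4 = 0) : CD.A = 0 := by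
  have h1 := g2_eq
  rw [PeriodPair.g₂, h, mul_zero] at h1
  have h2 : (cA ℂ) * Om ^ 4 = 0 := by linear_combination (1 / 4) * h1
  have h3 := (mul_eq_zero.1 h2).resolve_right (pow_ne_zero 4 Om_ne)
  exact Int.cast_eq_zero.1 h3

theorem B_eq_zero (h : PP.G 6 = 0) : CD.B = 0 := by
  have h1 := g3_eq
  rw [PeriodPair.g₃, h, mul_zero] at h1
  have h2 : (cB ℂ) * Om ^ 6 = 0 := by linear_combination (1 / 4) * h1
  have h3 := (mul_eq_zero.1 h2).resolve_right (pow_ne_zero 6 Om_ne)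
  exact Int.cast_eq_zero.1 h3

/-- `ta` is a unit if its norm is one -/
def taU (h : CD.nm = 1) : (𝓞 K)ˣ where
  val := ta
  inv := (CD.tr : 𝓞 K) - ta
  val_inv := by
    have h1 := ta_quad
    rw [h] at h1
    push_cast at h1
    linear_combination -h1
  inv_val := by
    have h1 := ta_quad
    rw [h] at h1
    push_cast at h1
    linear_combination -h1

theorem taU_val (h : CD.nm = 1) : ((taU h : (𝓞 K)ˣ) : 𝓞 K) = ta := rfl

theorem A_zero (h1 : CD.tr = 1) (h2 : CD.nm = 1) : CD.A = 0 := by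
  refine A_eq_zero (G_zero (taU h2) 4 ?_)
  have e : embK (((taU h2 : (𝓞 K)ˣ) : 𝓞 K) : K) = zt := rfl
  rw [e]
  have h3 := zt_quad
  rw [h1, h2] at h3
  push_cast at h3
  intro h4
  have h5 : zt = -1 := by
    linear_combination (-1 : ℂ) * h4 + (zt ^ 2 + zt) * h3
  rw [h5] at h3
  norm_num at h3

theorem B_zero (h1 : CD.tr = 0) (h2 : CD.nm = 1) : CD.B = 0 := by
  refine B_eq_zero (G_zero (taU h2) 6 ?_)
  have e : embK (((taU h2 : (𝓞 K)ˣ) : 𝓞 K) : K) = zt := rfl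
  rw [e]
  have h3 := zt_quad
  rw [h1, h2] at h3
  push_cast at h3
  intro h4
  have h5 : (-1 : ℂ) = 1 := by
    linear_combination h4 - (zt ^ 4 - zt ^ 2 + 1) * h3
  norm_num at h5

end

end Pool.Agent.Lib.MP_1a91b9_nuX.HU
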