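import Pool.Agent.Lib.MP_1a91b9_nuX.HU.Loc

/-!
# Places of good reduction of a curve with short Weierstrass equation
-/

set_option autoImplicit false

namespace Pool.Agent.Lib.MP_1a91b9_nuX.HU

open NumberField IsDedekindDomain WeierstrassCurve Pool.Agent.Lib.MP_1a91b9_nuT DB
open Pool.Agent.Lib.MP_1a91b9_nuX.GL

/-- the part without `k`-th powers of an integer -/
theorem exists_free {k : ℕ} (hk : 0 < k) (n : ℤ) (hn : n ≠ 0) :
    ∃ c m : ℤ, n = c ^ k * m ∧ ∀ p : ℕ, p.Prime → ¬ (p : ℤ) ^ k ∣ m := by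
  obtain ⟨N, hN⟩ : ∃ N : ℕ, n.natAbs = N := ⟨_, rfl⟩
  induction N using Nat.strong_induction_on generalizing n with
  | _ N ih =>
    by_cases h : ∀ p : ℕ, p.Prime → ¬ (p : ℤ) ^ k ∣ n
    · exact ⟨1, n, by rw [one_pow, one_mul], h⟩
    · push Not at h
      obtain ⟨p, hp, m, hm⟩ := h
      have hm0 : m ≠ 0 := by
        rintro rfl
        rw [mul_zero] at hm
        exact hn hm
      have h1 : m.natAbs < N := by
        rw [← hN, hm, Int.natAbs_mul, Int.natAbs_pow, Int.natAbs_natCast]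
        have h2 : 1 < p ^ k := Nat.one_lt_pow hk.ne' hp.one_lt
        have h3 : 0 < m.natAbs := Int.natAbs_pos.2 hm0
        nlinarith
      obtain ⟨c, m', e, he⟩ := ih _ h1 m hm0 rfl
      refine ⟨p * c, m', ?_, he⟩
      rw [hm, e, mul_pow]
      ring

/-- a nonzero integer is a power of `p` times an integer prime to `p` -/
theorem exists_pow {p : ℕ} (hp : p.Prime) (n : ℤ) (hn : n ≠ 0) :
    ∃ (k : ℕ) (m : ℤ), n = (p : ℤ) ^ k * m ∧ ¬ (p : ℤ) ∣ m := by
  have hf : FiniteMultiplicity (p : ℤ) n := by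
    apply Int.finiteMultiplicity_iff.mpr
    refine ⟨?_, hn⟩
    rw [Int.natAbs_natCast]
    exact hp.one_lt.ne'
  obtain ⟨c, hc, hc'⟩ := hf.exists_eq_pow_mul_and_not_dvd
  exact ⟨multiplicity (p : ℤ) n, c, hc, hc'⟩

noncomputable section

variable [CD] {P : HeightOneSpectrum (𝓞 K)}

theorem val_le_int (n : ℤ) : P.valuation K (n : K) ≤ 1 := by
  rw [coe_int]
  exact P.valuation_le_one _

/-- a scaled model with integral coefficients and discriminant prime to `P` -/
theorem good_scale {c : K} (hc : c ≠ 0) {a b : ℤ} (hA : cA K = c ^ 4 * (a : K))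
    (hB : cB K = c ^ 6 * (b : K))
    (hD : ((16 * (4 * a ^ 3 + 27 * b ^ 2) : ℤ) : 𝓞 K) ∉ P.asIdeal) :
    ∃ C : VariableChange K, GM.GoodW (P.valuation K) (C • E K) := by
  refine ⟨⟨Units.mk0 c hc, 0, 0, 0⟩, ?_⟩
  have hW : (⟨Units.mk0 c hc, 0, 0, 0⟩ : VariableChange K) • E K =
      ⟨0, 0, 0, (a : K), (b : K)⟩ := by
    have hci : (((Units.mk0 c hc)⁻¹ : Kˣ) : K) = c⁻¹ := by simp
    ext
    · rw [variableChange_a₁]
      simp [E]
    · rw [variableChange_a₂]
      simp [E]
    · rw [variableChange_a₃]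
      simp [E]
    · rw [variableChange_a₄, hci]
      simp only [E]
      rw [hA]
      field_simp
      ring
    · rw [variableChange_a₆, hci]
      simp only [E]
      rw [hA, hB]
      field_simp
      ring
  rw [hW]
  refine ⟨⟨?_, ?_, ?_, ?_, ?_⟩, ?_⟩
  · exact (map_zero (P.valuation K)).trans_le zero_le
  · exact (map_zero (P.valuation K)).trans_le zero_le
  · exact (map_zero (P.valuation K)).trans_le zero_le
  · exact val_le_int _
  · exact val_le_int _
  · have e : (⟨0, 0, 0, (a : K), (b : K)⟩ : WeierstrassCurve K).Δ =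
        -(((16 * (4 * a ^ 3 + 27 * b ^ 2) : ℤ)) : K) := by
      simp only [WeierstrassCurve.Δ, WeierstrassCurve.b₂, WeierstrassCurve.b₄,
        WeierstrassCurve.b₆, WeierstrassCurve.b₈]
      push_cast
      ring
    rw [e, Valuation.map_neg]
    exact val_one_of hD

end

end Pool.Agent.Lib.MP_1a91b9_nuX.HU
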