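import Pool.Agent.Lib.MP_1a91b9_nuX.HU.Unit
import Pool.Agent.Lib.MP_1a91b9_nuX.GL.Api

/-!
# The Hecke datum from a test point
-/

set_option autoImplicit false

namespace Pool.Agent.Lib.MP_1a91b9_nuX.HU

open NumberField IsDedekindDomain WeierstrassCurve Pool.Agent.Lib.MP_1a91b9_nuT DB
open Pool.Agent.Lib.MP_1a91b9_nuX.GL

noncomputable section

variable [CD]

/-- a unit which fixes a point with nonzero coordinates is trivial -/
theorem unit_fix [DecidableEq Kb] (u : (𝓞 K)ˣ) {T : Pt Kb} (hx : xc T ≠ 0) (hy : yc T ≠ 0)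
    (h : sm Kb (u : 𝓞 K) T = T) : u = 1 := by
  obtain ⟨f⟩ := exists_kb
  obtain ⟨h1, h2⟩ := sm_unit f u T
  rw [h] at h1 h2
  have e2 : algebraMap K Kb ((u : 𝓞 K) : K) ^ 2 = 1 := by
    have h3 : xc T * (algebraMap K Kb ((u : 𝓞 K) : K) ^ 2 - 1) = 0 := by linear_combination h1
    exact sub_eq_zero.1 ((mul_eq_zero.1 h3).resolve_left hx)
  have e3 : algebraMap K Kb ((u : 𝓞 K) : K) ^ 3 = 1 := by
    have h3 : yc T * (algebraMap K Kb ((u : 𝓞 K) : K) ^ 3 - 1) = 0 := by linear_combination h2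
    exact sub_eq_zero.1 ((mul_eq_zero.1 h3).resolve_left hy)
  have e1 : algebraMap K Kb ((u : 𝓞 K) : K) = algebraMap K Kb 1 := by
    rw [map_one]
    linear_combination e3 - algebraMap K Kb ((u : 𝓞 K) : K) * e2
  have e4 := (algebraMap K Kb).injective e1
  apply Units.ext
  apply RingOfIntegers.ext
  rw [e4, Units.val_one]
  exact (map_one (algebraMap (𝓞 K) K)).symm

/-- two generators of an ideal -/
theorem exists_unit {a b : 𝓞 K} (h : Ideal.span {a} = Ideal.span {b}) :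
    ∃ u : (𝓞 K)ˣ, a = (u : 𝓞 K) * b := by
  obtain ⟨u, hu⟩ := Ideal.span_singleton_eq_span_singleton.1 h
  refine ⟨u⁻¹, ?_⟩
  rw [← hu, mul_comm a, ← mul_assoc, ← Units.val_mul, inv_mul_cancel, Units.val_one, one_mul]

/-- the Hecke datum, from the action of the Frobenius automorphisms on one point with nonzero
coordinates -/
theorem hdat_of (hE : EllK) {f : 𝓞 K} {ps : Ideal (𝓞 K) → 𝓞 K} (h0 : f ≠ 0)
    (h3 : ∃ r : ℕ, 3 ≤ r ∧ (r : 𝓞 K) ∣ f) (h1 : ps 1 = 1)
    (hmul : ∀ I J : Ideal (𝓞 K), ps (I * J) = ps I * ps J)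
    (hspan : ∀ I : Ideal (𝓞 K), IsCoprime I (Ideal.span {f}) → Ideal.span {ps I} = I)
    (hzero : ∀ I : Ideal (𝓞 K), ¬ IsCoprime I (Ideal.span {f}) → ps I = 0)
    (hray : ∀ a : 𝓞 K, f ∣ a - 1 → ps (Ideal.span {a}) = a)
    (hgood : ∀ P : HeightOneSpectrum (𝓞 K), f ∉ P.asIdeal →
      ∃ C : VariableChange K, GM.GoodW (P.valuation K) (C • E K))
    (hbad : ∀ P : HeightOneSpectrum (𝓞 K), f ∈ P.asIdeal →
      ¬ ∃ C : VariableChange K, GM.GoodW (P.valuation K) (C • E K))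
    (htest : ∀ [DecidableEq Kb] (P : HeightOneSpectrum (𝓞 K)), f ∉ P.asIdeal →
      ∀ V : ValuationSubring Kb, Abv P V → ∀ σ : Kb ≃ₐ[K] Kb,
      IsFr V (Ideal.absNorm P.asIdeal) σ → ∃ T : Pt Kb, Tr V.valuation T ∧ xc T ≠ 0 ∧ yc T ≠ 0 ∧
        ga σ T = sm Kb (ps P.asIdeal) T) : HDat f ps where
  ne := h0
  big := h3
  one := h1
  mul := hmul
  span := hspan
  zero := hzero
  ray := hray
  frob := by
    intro _ P hf V hV σ hσ n T hn hT
    obtain ⟨ψ, hψ, hfr⟩ := fr_unit hE P (hgood P hf)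
    have hc : IsCoprime P.asIdeal (Ideal.span {f}) := by
      rw [Ideal.isCoprime_iff_sup_eq]
      by_contra hc
      have h1 : P.asIdeal = P.asIdeal ⊔ Ideal.span {f} :=
        P.isMaximal.eq_of_le hc le_sup_left
      refine hf ?_
      rw [h1]
      exact Ideal.mem_sup_right (Ideal.mem_span_singleton_self _)
    obtain ⟨u, hu⟩ := exists_unit (hψ.trans (hspan _ hc).symm)
    obtain ⟨T₀, t1, t2, t3, t4⟩ := htest P hf V hV σ hσ
    have e1 := hfr V hV σ hσ T₀ t1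
    rw [hu, sm_mul, ← t4] at e1
    have e2 : u = 1 := by
      refine unit_fix u (T := ga σ T₀) ?_ ?_ e1.symm
      · rw [xc_gk]
        exact fun h => t2 (σ.injective (h.trans (map_zero σ).symm))
      · rw [yc_gk]
        exact fun h => t3 (σ.injective (h.trans (map_zero σ).symm))
    rw [e2, Units.val_one, one_mul] at hu
    rw [← hu]
    exact hfr V hV σ hσ T ⟨n, hn, hT⟩
  bad := hbad

end

end Pool.Agent.Lib.MP_1a91b9_nuX.HU
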