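import Pool.Agent.Lib.MP_1a91b9_nuX.GL.Env

/-!
# The elements of `𝓞 K` in the algebraic closure; prime numbers in places
-/

set_option autoImplicit false

namespace Pool.Agent.Lib.MP_1a91b9_nuX.HU

open NumberField IsDedekindDomain WeierstrassCurve Pool.Agent.Lib.MP_1a91b9_nuT DB
open Pool.Agent.Lib.MP_1a91b9_nuX.GL

noncomputable section

variable [CD]

/-- the algebraic closure as an algebra over `𝓞 K` -/
abbrev eK (a : 𝓞 K) : Kb := algebraMap K Kb (a : K)

theorem eK_mul (a b : 𝓞 K) : eK (a * b) = eK a * eK b := by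
  rw [eK, RingOfIntegers.coe_eq_algebraMap, map_mul, map_mul]

theorem eK_pow (a : 𝓞 K) (n : ℕ) : eK (a ^ n) = eK a ^ n := by
  rw [eK, RingOfIntegers.coe_eq_algebraMap, map_pow, map_pow]

theorem eK_one : eK (1 : 𝓞 K) = 1 := by
  rw [eK, RingOfIntegers.coe_eq_algebraMap, map_one, map_one]

theorem eK_neg (a : 𝓞 K) : eK (-a) = -eK a := by
  rw [eK, RingOfIntegers.coe_eq_algebraMap, map_neg, map_neg]

theorem eK_sub (a b : 𝓞 K) : eK (a - b) = eK a - eK b := by
  rw [eK, RingOfIntegers.coe_eq_algebraMap, map_sub, map_sub]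

theorem eK_int (n : ℤ) : eK (n : 𝓞 K) = n := by
  rw [eK, RingOfIntegers.coe_eq_algebraMap, map_intCast, map_intCast]

theorem eK_le {P : HeightOneSpectrum (𝓞 K)} {V : ValuationSubring Kb} (hV : Abv P V) (a : 𝓞 K) :
    V.valuation (eK a) ≤ 1 := (hV _).2 (P.valuation_le_one a)

theorem eK_lt {P : HeightOneSpectrum (𝓞 K)} {V : ValuationSubring Kb} (hV : Abv P V) (a : 𝓞 K) :
    V.valuation (eK a) < 1 ↔ a ∈ P.asIdeal := by
  rw [eK, abv_lt hV]
  exact P.valuation_lt_one_iff_mem a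

theorem eK_eq_one {P : HeightOneSpectrum (𝓞 K)} {V : ValuationSubring Kb} (hV : Abv P V) {a : 𝓞 K}
    (ha : a ∉ P.asIdeal) : V.valuation (eK a) = 1 :=
  le_antisymm (eK_le hV a) (not_lt.1 fun h => ha ((eK_lt hV a).1 h))

theorem eK_inj {a b : 𝓞 K} (h : eK a = eK b) : a = b :=
  RingOfIntegers.ext ((algebraMap K Kb).injective h)

/-- a prime number in a place -/
theorem exists_prime_mem (P : HeightOneSpectrum (𝓞 K)) :
    ∃ p : ℕ, p.Prime ∧ (p : 𝓞 K) ∈ P.asIdeal := by
  have key : ∀ n : ℕ, n ≠ 0 → (n : 𝓞 K) ∈ P.asIdeal → ∃ p : ℕ, p.Prime ∧ (p : 𝓞 K) ∈ P.asIdeal := by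
    intro n
    induction n using Nat.strong_induction_on with
    | _ n ih =>
      intro hn hm
      by_cases h1 : n = 1
      · rw [h1, Nat.cast_one] at hm
        exact absurd ((Ideal.eq_top_iff_one _).2 hm) P.isPrime.ne_top
      · have hp := Nat.minFac_prime h1
        obtain ⟨k, hk⟩ := Nat.minFac_dvd n
        have hk0 : k ≠ 0 := by
          rintro rfl
          rw [mul_zero] at hk
          exact hn hk
        have h2 : ((n.minFac : ℕ) : 𝓞 K) * (k : 𝓞 K) ∈ P.asIdeal := by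
          rw [← Nat.cast_mul, ← hk]
          exact hm
        rcases P.isPrime.mem_or_mem h2 with h3 | h3
        · exact ⟨_, hp, h3⟩
        · refine ih k ?_ hk0 h3
          have h4 : 1 < n.minFac := hp.one_lt
          have h5 : 0 < k := Nat.pos_of_ne_zero hk0
          have h6 : k < n.minFac * k := by nlinarith
          rwa [← hk] at h6
  refine key (Ideal.absNorm P.asIdeal) ?_ (Ideal.absNorm_mem _)
  rw [Ne, Ideal.absNorm_eq_zero_iff]
  exact P.ne_bot

end

end Pool.Agent.Lib.MP_1a91b9_nuX.HU
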