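import Pool.Agent.Lib.MP_1a91b9_nuX.DB.Uni
import Pool.Agent.Lib.MP_1a91b9_nuX.GL.Env

/-!
# The action of the units of `𝓞 K` on the points

`sm F u (x, y) = (u⁻² x, u⁻³ y)` for a unit `u`.
-/

set_option autoImplicit false

namespace Pool.Agent.Lib.MP_1a91b9_nuX.HU

open NumberField IsDedekindDomain WeierstrassCurve Pool.Agent.Lib.MP_1a91b9_nuT DB
open Pool.Agent.Lib.MP_1a91b9_nuX.GL

noncomputable section

variable [CD]

theorem mem_lat {z : ℂ} : z ∈ PP.lattice ↔ ∃ a : 𝓞 K, z = embK (a : K) := by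
  rw [PeriodPair.mem_lattice]
  constructor
  · rintro ⟨m, n, rfl⟩
    refine ⟨(m : 𝓞 K) + (n : 𝓞 K) * ta, ?_⟩
    rw [emb_coords]
    change (m : ℂ) * 1 + (n : ℂ) * zt = _
    ring
  · rintro ⟨a, rfl⟩
    obtain ⟨m, n, rfl⟩ := exists_coords a
    refine ⟨m, n, ?_⟩
    rw [emb_coords]
    change (m : ℂ) * 1 + (n : ℂ) * zt = _
    ring

theorem emb_mul (a b : 𝓞 K) : embK ((a * b : 𝓞 K) : K) = embK (a : K) * embK (b : K) := by
  have : ((a * b : 𝓞 K) : K) = (a : K) * (b : K) := map_mul (algebraMap (𝓞 K) K) _ _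
  rw [this, map_mul]

theorem lat_mul (a : 𝓞 K) {z : ℂ} (hz : z ∈ PP.lattice) : embK (a : K) * z ∈ PP.lattice := by
  obtain ⟨b, rfl⟩ := mem_lat.1 hz
  exact mem_lat.2 ⟨a * b, (emb_mul a b).symm⟩

theorem emb_inv (u : (𝓞 K)ˣ) : embK (((u⁻¹ : (𝓞 K)ˣ) : 𝓞 K) : K) * embK ((u : 𝓞 K) : K) = 1 := by
  rw [← emb_mul, ← Units.val_mul, inv_mul_cancel, Units.val_one]
  have : ((1 : 𝓞 K) : K) = 1 := map_one (algebraMap (𝓞 K) K)
  rw [this, map_one]

theorem emb_ne (u : (𝓞 K)ˣ) : embK ((u : 𝓞 K) : K) ≠ 0 := right_ne_zero_of_mul_eq_one (emb_inv u)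

/-- the multiplication by a unit on the lattice -/
def latE (u : (𝓞 K)ˣ) : PP.lattice ≃ PP.lattice where
  toFun l := ⟨embK ((u : 𝓞 K) : K) * l, lat_mul _ l.2⟩
  invFun l := ⟨embK (((u⁻¹ : (𝓞 K)ˣ) : 𝓞 K) : K) * l, lat_mul _ l.2⟩
  left_inv l := by
    apply Subtype.ext
    change embK (((u⁻¹ : (𝓞 K)ˣ) : 𝓞 K) : K) * (embK ((u : 𝓞 K) : K) * (l : ℂ)) = l
    rw [← mul_assoc, emb_inv, one_mul]
  right_inv l := by
    apply Subtype.ext
    change embK ((u : 𝓞 K) : K) * (embK (((u⁻¹ : (𝓞 K)ˣ) : 𝓞 K) : K) * (l : ℂ)) = l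
    rw [← mul_assoc, mul_comm (embK ((u : 𝓞 K) : K)), emb_inv, one_mul]

theorem latE_apply (u : (𝓞 K)ˣ) (l : PP.lattice) :
    ((latE u l : PP.lattice) : ℂ) = embK ((u : 𝓞 K) : K) * l := rfl

theorem P_unit (u : (𝓞 K)ˣ) (z : ℂ) :
    PP.weierstrassP (embK ((u : 𝓞 K) : K) * z) * embK ((u : 𝓞 K) : K) ^ 2 = PP.weierstrassP z := by
  have h0 := emb_ne u
  have h1 := PP.hasSum_weierstrassP (embK ((u : 𝓞 K) : K) * z)
  have h2 := ((latE u).hasSum_iff.2 h1).mul_right (embK ((u : 𝓞 K) : K) ^ 2)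
  refine h2.unique ?_
  have h3 := PP.hasSum_weierstrassP z
  have e : (fun l : PP.lattice => ((fun l : PP.lattice =>
      (1 / (embK ((u : 𝓞 K) : K) * z - (l : ℂ)) ^ 2 - 1 / (l : ℂ) ^ 2)) ∘ (latE u)) l *
      embK ((u : 𝓞 K) : K) ^ 2) = fun l : PP.lattice => (1 / (z - (l : ℂ)) ^ 2 - 1 / (l : ℂ) ^ 2) := by
    funext l
    simp only [Function.comp_apply, latE_apply]
    rw [← mul_sub, mul_pow, mul_pow, sub_mul]
    congr 1
    · rw [one_div, one_div, mul_inv, mul_right_comm, inv_mul_cancel₀ (pow_ne_zero 2 h0), one_mul]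
    · rw [one_div, one_div, mul_inv, mul_right_comm, inv_mul_cancel₀ (pow_ne_zero 2 h0), one_mul]
  rw [e]
  exact h3

theorem Q_unit (u : (𝓞 K)ˣ) (z : ℂ) :
    PP.derivWeierstrassP (embK ((u : 𝓞 K) : K) * z) * embK ((u : 𝓞 K) : K) ^ 3 =
      PP.derivWeierstrassP z := by
  have h0 := emb_ne u
  have h1 := PP.hasSum_derivWeierstrassP (embK ((u : 𝓞 K) : K) * z)
  have h2 := ((latE u).hasSum_iff.2 h1).mul_right (embK ((u : 𝓞 K) : K) ^ 3)
  refine h2.unique ?_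
  have h3 := PP.hasSum_derivWeierstrassP z
  have e : (fun l : PP.lattice => ((fun l : PP.lattice =>
      -2 / (embK ((u : 𝓞 K) : K) * z - (l : ℂ)) ^ 3) ∘ (latE u)) l *
      embK ((u : 𝓞 K) : K) ^ 3) = fun l : PP.lattice => -2 / (z - (l : ℂ)) ^ 3 := by
    funext l
    simp only [Function.comp_apply, latE_apply]
    rw [← mul_sub, mul_pow, div_eq_mul_inv, div_eq_mul_inv, mul_inv]
    linear_combination (-2) * ((z - (l : ℂ)) ^ 3)⁻¹ * (inv_mul_cancel₀ (pow_ne_zero 3 h0))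
  rw [e]
  exact h3

/-- the action of a unit on the points over `ℂ` -/
theorem sm_unit_C [DecidableEq ℂ] (u : (𝓞 K)ˣ) (P : Pt ℂ) :
    xc (sm ℂ (u : 𝓞 K) P) * embK ((u : 𝓞 K) : K) ^ 2 = xc P ∧
      yc (sm ℂ (u : 𝓞 K) P) * embK ((u : 𝓞 K) : K) ^ 3 = yc P := by
  obtain ⟨U, h1, h2, h3, h4⟩ := exists_uni
  obtain ⟨z, rfl⟩ := h1 P
  rw [← h4]
  by_cases hz : z ∈ PP.lattice
  · rw [(h2 z).2 hz, (h2 _).2 (lat_mul _ hz)]
    constructor
    · exact zero_mul _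
    · exact zero_mul _
  · have hz' : embK ((u : 𝓞 K) : K) * z ∉ PP.lattice := by
      intro h
      apply hz
      have h5 := lat_mul ((u⁻¹ : (𝓞 K)ˣ) : 𝓞 K) h
      rwa [← mul_assoc, emb_inv, one_mul] at h5
    obtain ⟨a1, a2⟩ := h3 z hz
    obtain ⟨b1, b2⟩ := h3 _ hz'
    rw [a1, a2, b1, b2, S3.X, S3.X, S3.Y, S3.Y]
    constructor
    · rw [div_mul_eq_mul_div, P_unit]
    · rw [div_mul_eq_mul_div, div_mul_eq_mul_div, Q_unit]

/-- the action of a unit on the points over a subfield of `ℂ` -/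
theorem sm_unit {F : Type*} [Field F] [Algebra K F] [DecidableEq F] (f : F →ₐ[K] ℂ) (u : (𝓞 K)ˣ)
    (P : Pt F) : xc (sm F (u : 𝓞 K) P) * algebraMap K F ((u : 𝓞 K) : K) ^ 2 = xc P ∧
      yc (sm F (u : 𝓞 K) P) * algebraMap K F ((u : 𝓞 K) : K) ^ 3 = yc P := by
  classical
  have h1 := sm_unit_C u (pm f P)
  rw [← pm_sm, xc_pm, yc_pm, xc_pm, yc_pm] at h1
  have h2 : f (algebraMap K F ((u : 𝓞 K) : K)) = embK ((u : 𝓞 K) : K) := f.commutes _
  rw [← h2] at h1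
  refine ⟨f.toRingHom.injective ?_, f.toRingHom.injective ?_⟩
  · change f _ = f _
    rw [map_mul, map_pow]
    exact h1.1
  · change f _ = f _
    rw [map_mul, map_pow]
    exact h1.2

/-- an embedding of the algebraic closure of `K` -/
theorem exists_kb : Nonempty (Kb →ₐ[K] ℂ) := ⟨IsAlgClosed.lift⟩

end

end Pool.Agent.Lib.MP_1a91b9_nuX.HU
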