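import Pool.Agent.Lib.MP_1a91b9_nuX.GL.Api

/-!
# Places of bad reduction: the discriminant
-/

set_option autoImplicit false

namespace Pool.Agent.Lib.MP_1a91b9_nuX.HU

open NumberField IsDedekindDomain WeierstrassCurve Pool.Agent.Lib.MP_1a91b9_nuT DB
open Pool.Agent.Lib.MP_1a91b9_nuX.GL

noncomputable section

variable [CD] {P : HeightOneSpectrum (𝓞 K)}

/-- the discriminant of a good model -/
theorem val_disc {C : VariableChange K} (h : GM.GoodW (P.valuation K) (C • E K)) :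
    P.valuation K (E K).Δ = P.valuation K (C.u : K) ^ 12 := by
  have h1 := h.disc
  rw [variableChange_Δ] at h1
  have h2 : (E K).Δ = (C.u : K) ^ 12 * (((C.u⁻¹ : Kˣ) : K) ^ 12 * (E K).Δ) := by
    rw [← mul_assoc, ← mul_pow, Units.mul_inv, one_pow, one_mul]
  rw [h2, Valuation.map_mul, h1, mul_one, map_pow]

theorem exists_exp {x : K} (hx : x ≠ 0) : ∃ j : ℤ, P.valuation K x = WithZero.exp j := by
  have h1 : P.valuation K x ≠ 0 := (Valuation.ne_zero_iff _).2 hx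
  exact ⟨WithZero.log (P.valuation K x), (WithZero.exp_log h1).symm⟩

/-- the exponent of the discriminant at a place of good reduction -/
theorem disc_exp (h : ∃ C : VariableChange K, GM.GoodW (P.valuation K) (C • E K)) {a : ℤ}
    (ha : P.valuation K (E K).Δ = WithZero.exp a) : ∃ j : ℤ, a = 12 * j := by
  obtain ⟨C, hC⟩ := h
  have h1 := val_disc hC
  obtain ⟨j, hj⟩ := exists_exp (P := P) C.u.ne_zero
  rw [ha, hj, ← WithZero.exp_nsmul] at h1
  refine ⟨j, ?_⟩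
  have h2 := WithZero.exp_injective h1
  rw [h2]
  simp

theorem coe_nat (p : ℕ) : (p : K) = algebraMap (𝓞 K) K (p : 𝓞 K) := (map_natCast _ _).symm
theorem coe_int (p : ℤ) : (p : K) = algebraMap (𝓞 K) K (p : 𝓞 K) := (map_intCast _ _).symm

theorem val_prime {p : ℕ} (h1 : (p : 𝓞 K) ∈ P.asIdeal) (h2 : (p : 𝓞 K) ∉ P.asIdeal ^ 2)
    (hp : p ≠ 0) : P.valuation K (p : K) = WithZero.exp (-1 : ℤ) := by
  have h0 : (p : K) ≠ 0 := Nat.cast_ne_zero.2 hp
  obtain ⟨j, hj⟩ := exists_exp (P := P) h0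
  have e : P.valuation K (p : K) = P.intValuation (p : 𝓞 K) := by
    rw [coe_nat, HeightOneSpectrum.valuation_of_algebraMap]
  have h3 : P.intValuation (p : 𝓞 K) ≤ WithZero.exp (-((1 : ℕ) : ℤ)) :=
    (HeightOneSpectrum.intValuation_le_pow_iff_mem _ _ _).2 (by rw [pow_one]; exact h1)
  have h4 : ¬ P.intValuation (p : 𝓞 K) ≤ WithZero.exp (-((2 : ℕ) : ℤ)) := fun h =>
    h2 ((HeightOneSpectrum.intValuation_le_pow_iff_mem _ _ _).1 h)
  rw [← e, hj, WithZero.exp_le_exp] at h3 h4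
  rw [hj]
  congr 1
  push_cast at h3 h4
  omega

theorem val_one_of {n : ℤ} (h : (n : 𝓞 K) ∉ P.asIdeal) : P.valuation K (n : K) = 1 := by
  rw [coe_int, HeightOneSpectrum.valuation_of_algebraMap]
  refine le_antisymm (P.intValuation_le_one _) (not_lt.1 fun hlt => h ?_)
  exact (P.intValuation_lt_one_iff_mem _).1 hlt

/-- an integer prime to the residue characteristic -/
theorem int_notMem {p : ℕ} (hp : p.Prime) (h1 : (p : 𝓞 K) ∈ P.asIdeal) {n : ℤ}
    (hn : ¬ (p : ℤ) ∣ n) : (n : 𝓞 K) ∉ P.asIdeal := by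
  intro h
  have h2 : IsCoprime (p : ℤ) n := (Nat.prime_iff_prime_int.1 hp).coprime_iff_not_dvd.2 hn
  obtain ⟨a, b, hab⟩ := h2
  refine P.isPrime.ne_top ((Ideal.eq_top_iff_one _).2 ?_)
  have e : (1 : 𝓞 K) = (a : 𝓞 K) * (p : 𝓞 K) + (b : 𝓞 K) * (n : 𝓞 K) := by
    have h3 := congrArg (fun z : ℤ => (z : 𝓞 K)) hab
    push_cast at h3
    exact h3.symm
  rw [e]
  exact P.asIdeal.add_mem (P.asIdeal.mul_mem_left _ h1) (P.asIdeal.mul_mem_left _ h)

/-- the valuation of an integer -/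
theorem val_int {p : ℕ} (hp : p.Prime) (h1 : (p : 𝓞 K) ∈ P.asIdeal)
    (h2 : (p : 𝓞 K) ∉ P.asIdeal ^ 2) (k : ℕ) {m : ℤ} (hm : ¬ (p : ℤ) ∣ m) :
    P.valuation K (((p : ℤ) ^ k * m : ℤ) : K) = WithZero.exp (-(k : ℤ)) := by
  push_cast
  rw [map_mul, map_pow, val_prime h1 h2 hp.ne_zero, val_one_of (int_notMem hp h1 hm), mul_one,
    ← WithZero.exp_nsmul]
  congr 1
  simp

theorem map_cj_cj (I : Ideal (𝓞 K)) : (I.map cj).map cj = I := by
  rw [Ideal.map_map]
  have e : cj.comp cj = RingHom.id (𝓞 K) := RingHom.ext cj_cj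
  rw [e, Ideal.map_id]

/-- a prime number which ramifies -/
theorem bad_of_sq (hE : EllK) {p : ℕ} (hp : p.Prime) (h : (p : 𝓞 K) ∈ P.asIdeal ^ 2) :
    ¬ ∃ C : VariableChange K, GM.GoodW (P.valuation K) (C • E K) := by
  have hpn : Ideal.absNorm (Ideal.span {(p : 𝓞 K)}) = p ^ 2 := by
    have h1 := absNorm_form (p : ℤ) 0
    rw [Int.cast_natCast, Int.cast_zero, zero_mul, add_zero] at h1
    have h2 : (((Ideal.absNorm (Ideal.span {(p : 𝓞 K)}) : ℕ) : ℤ)) = ((p ^ 2 : ℕ) : ℤ) := by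
      rw [h1]
      push_cast
      ring
    exact_mod_cast h2
  have hdvd : P.asIdeal ^ 2 ∣ Ideal.span {(p : 𝓞 K)} := by
    rw [Ideal.dvd_iff_le, Ideal.span_singleton_le_iff_mem]
    exact h
  have h3 : Ideal.absNorm P.asIdeal ^ 2 ∣ p ^ 2 := by
    rw [← map_pow, ← hpn]
    exact map_dvd Ideal.absNorm hdvd
  have h4 : Ideal.absNorm P.asIdeal ∣ p := (Nat.pow_dvd_pow_iff two_ne_zero).1 h3
  have h5 : Ideal.absNorm P.asIdeal = p := by
    rcases (Nat.dvd_prime hp).1 h4 with h6 | h6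
    · exact absurd (Ideal.absNorm_eq_one_iff.1 h6) P.isPrime.ne_top
    · exact h6
  obtain ⟨J, hJ⟩ := hdvd
  have h6 : Ideal.absNorm J = 1 := by
    have h7 := congrArg Ideal.absNorm hJ
    rw [hpn, map_mul, map_pow, h5] at h7
    have h8 : p ^ 2 * 1 = p ^ 2 * Ideal.absNorm J := by rw [mul_one]; exact h7
    exact (Nat.eq_of_mul_eq_mul_left (pow_pos hp.pos 2) h8).symm
  rw [Ideal.absNorm_eq_one_iff] at h6
  rw [h6, Ideal.mul_top] at hJ
  refine ram_bad hE P hp h5 ?_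
  have h7 : (P.asIdeal.map cj) ^ 2 = P.asIdeal ^ 2 := by
    rw [← Ideal.map_pow, ← hJ, Ideal.map_span, Set.image_singleton, map_natCast]
  have h8 : (P.asIdeal.map cj) ^ 2 ≤ P.asIdeal := by
    rw [h7, pow_two]
    exact Ideal.mul_le_left
  have h9 : P.asIdeal.map cj ≤ P.asIdeal := P.isPrime.le_of_pow_le h8
  refine le_antisymm h9 ?_
  have h10 := Ideal.map_mono (f := cj) h9
  rwa [map_cj_cj] at h10

end

end Pool.Agent.Lib.MP_1a91b9_nuX.HU
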